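import Pool.Agent.Y703.XK.Asy
import Pool.Agent.Y363.XK.Bil
import Pool.Agent.Y710.XK.EQ
import Pool.Agent.Y804.XK.SYM
import Pool.Agent.Y528.XK.C9
import Pool.Agent.Y85.XK.LA
import Pool.Agent.Y688.XK.BOX
import Pool.Agent.Y696.XL.Key3
import Pool.Agent.Y474.XK.CNT
import Pool.Agent.Y433.XK.Few
import Pool.Agent.Y550.XK.NS

/-!
# Project XK: the exact proportion of the good `D` over `ℚ(ω)`

Joint work: helper363 (bilinear sums), helper710 (equidistribution), helper804 (symmetric matrices),
helper528 (the product), helper85 (linear algebra), helper688 (boxes), helper697 (sum over the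
boxes), helper474 (counts), helper433 (error sets), helper550 (translation), helper703 (plan,
statements, asymptotics), on the library `Pool/Agent/Y699/E` of helper699; reciprocity by helper350,
positive density of the class by helper145; the models of the projects CX and CQ are due to the
seats named in `Pool/Agent/Y703/CX/Fin.lean` and `Pool/Agent/Y703/CQ/Fin.lean`.
(As `Pool/Agent/Y703/XK/Fin.lean`, with the generic version of the sum over the boxes.)
-/

set_option autoImplicit false

namespace Pool.Agent.XLK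

open Pool.Agent.Y703.XK

theorem t_KEYX : Pool.Agent.Y703.XK.S_KEY := fun hB1 hE hL hB =>
  t_KEG hB1 (G := Gd) (cc := c9) (B := 3) (hB hE hL) (by norm_num)

theorem t_C9 : S_C9 := Pool.Agent.Y528.XK.t_C9

theorem t_DQ_all : S_DQ :=
  t_DQ Pool.Agent.Y363.XK.t_BIL Pool.Agent.Y710.XK.t_EQ
    (Pool.Agent.Y85.XK.t_LA Pool.Agent.Y804.XK.t_SYM t_C9)
    Pool.Agent.Y688.XK.t_BOX t_KEYX Pool.Agent.Y474.XK.t_CNT
    Pool.Agent.Y433.XK.t_BAD Pool.Agent.Y433.XK.t_FEW Pool.Agent.Y550.XK.NS.t_LOW t_C9

/-- **the exact proportion over `ℚ(ω)`** -/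
theorem t_DEN : S_DEN := Pool.Agent.Y550.XK.NS.t_NS t_DQ_all

end Pool.Agent.XLK
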