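import Pool.Agent.Y696.XK.Fin
import Pool.Agent.Y696.XL.XKFin
import Pool.Agent.Y667.BKP.Main

/-!
# The conjecture of Bloch and Kato on the Kummer map for cubic twists
-/

set_option autoImplicit false
set_option linter.unusedVariables false

open scoped Classical

namespace Pool.Agent.XL6

open NumberField IsDedekindDomain WeierstrassCurve
open Pool.Agent.Y692.QS (Ei)
open Pool.Agent.Y703.CT
open Pool.Agent.Y696.CTK
open Pool.Agent.Y696.CTE (final9)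
open Pool.Agent.Y696.XK (RkZ rkz_of disc_ED cls_iff img_ncard good_tri)

/-- both sides of the conjecture are zero -/
def BZ {F : Type} [Field F] [NumberField F] (W : WeierstrassCurve F) : Prop :=
  W.IsElliptic ∧ (∀ x : TensorProduct ℤ W.toAffine.Point ℚ_[3], x = 0) ∧
    ∀ x : Pool.Agent.Y667.BKP.H1f 3 W, x = 0

lemma bz_of {F : Type} [Field F] [NumberField F] {W : WeierstrassCurve F} (hΔ : W.Δ ≠ 0)
    (hfin : Finite W.toAffine.Point) (m : ℕ)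
    (hS : ∀ (k : ℕ) (x : Pool.Agent.TH841.NF.D.Sha W), (3 ^ k : ℕ) • x = 0 →
      (3 ^ m : ℕ) • x = 0) : BZ W :=
  ⟨⟨isUnit_iff_ne_zero.2 hΔ⟩, Pool.Agent.Y667.BKP.tensor_zero 3,
    Pool.Agent.Y667.BKP.h1f_zero Nat.prime_three hfin m hS⟩

/-- the statement -/
theorem finalBK (K : Type) [Field K] [NumberField K] [IsCyclotomicExtension {3} ℚ K] :
    (∃ c : ℝ, 0 < c ∧ ∃ X₀ : ℕ, ∀ X : ℕ, X₀ ≤ X →
      c * X ≤ ({D : 𝓞 K | Algebra.norm ℤ D ≤ X ∧ ClsK D}.ncard : ℝ)) ∧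
    (∀ D : 𝓞 K, ClsK D → CritK D ∧
      (∃ (F : Type) (_ : Field F) (_ : NumberField F) (_ : Algebra K F) (θ : F),
        Module.finrank K F = 3 ∧ θ ^ 3 = algebraMap K F D) ∧
      (Tri D → BZ (ED (D : K)) ∧
        ∀ (F : Type) [Field F] [NumberField F] [Algebra K F] (θ : F),
          Module.finrank K F = 3 → θ ^ 3 = algebraMap K F D → BZ (ED (1 : F)))) ∧
    Filter.Tendsto (fun X : ℕ =>
      ({D : 𝓞 K | Algebra.norm ℤ D ≤ X ∧ ClsK D ∧ Tri D}.ncard : ℝ) /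
        ({D : 𝓞 K | Algebra.norm ℤ D ≤ X ∧ ClsK D}.ncard : ℝ)) Filter.atTop
      (nhds (∏' i : ℕ, (1 - (1 / 3 : ℝ) ^ (2 * i + 1)))) ∧
    (0.639 : ℝ) < ∏' i : ℕ, (1 - (1 / 3 : ℝ) ^ (2 * i + 1)) ∧
    ∏' i : ℕ, (1 - (1 / 3 : ℝ) ^ (2 * i + 1)) < 0.6391 := by
  obtain ⟨h1, h2, h3, h4⟩ := Pool.Agent.Y696.XK.final Pool.Agent.XLK.t_DEN Pool.Agent.XLK.t_C9 K
  obtain ⟨-, a2, -⟩ := final9 K
  refine ⟨h1, fun D hD => ⟨(h2 D hD).1, (h2 D hD).2.1, fun ht => ⟨?_, ?_⟩⟩, h3, h4⟩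
  · have hD0 : (D : K) ≠ 0 := by
      intro h
      exact hD.2.1.ne_zero (NumberField.RingOfIntegers.coe_injective (h.trans (map_zero _).symm))
    exact bz_of (disc_ED hD0) ht.1 0 fun k x hx => by rw [pow_zero, one_smul]; exact ht.2 k x hx
  · intro F _ _ _ θ hd hθ
    obtain ⟨⟨ω, n, π, χ, hω, hf⟩, hcr⟩ := (h2 D hD).1
    have hlap := (hcr ω n π χ hω hf).1 ht
    obtain ⟨⟨-, c4, c5⟩, -⟩ := ((a2 D hD).2.2 F θ hd hθ).2 ω n π χ hω hf hlap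
    exact bz_of (disc_ED one_ne_zero) c4 1 fun k x hx => by rw [pow_one]; exact c5 k x hx

end Pool.Agent.XL6
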