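import Pool.Agent.Y696.XL.Res

/-!
# Project XL: the rank form
-/

set_option autoImplicit false
set_option linter.unusedVariables false

open scoped Classical

namespace Pool.Agent.XL6

open NumberField IsDedekindDomain WeierstrassCurve
open Pool.Agent.Y692.QS (Ei)
open Pool.Agent.Y703.CT
open Pool.Agent.Y696.CTK
open Pool.Agent.Y696.XK (cls_iff)

/-- the rank -/
noncomputable def rkD {K : Type} [Field K] (D : K) : ℕ := Module.finrank ℤ (ED D).toAffine.Point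

/-- the products -/
lemma prod_low (r : ℕ) : (1 / 2 + 1 / (2 * 3 ^ r) : ℝ) * 3 ^ (r * (r + 1) / 2) ≤
    ∏ i ∈ Finset.range r, ((3 : ℝ) ^ (i + 1) - 1) := by
  induction r with
  | zero => norm_num
  | succ r ih =>
    rw [Finset.prod_range_succ]
    have e1 : (r + 1) * (r + 1 + 1) / 2 = r * (r + 1) / 2 + (r + 1) := by
      have h1 : (r + 1) * (r + 1 + 1) = r * (r + 1) + 2 * (r + 1) := by ring
      rw [h1, Nat.add_mul_div_left _ _ (by norm_num)]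
    have h3 : (0 : ℝ) < 3 ^ (r + 1) := by positivity
    have h4 : (0 : ℝ) < 3 ^ r := by positivity
    have h5 : (1 : ℝ) ≤ 3 ^ r := one_le_pow₀ (by norm_num)
    have h6 : (3 : ℝ) ^ (r + 1) = 3 * 3 ^ r := by rw [pow_succ]; ring
    have h7 : (0 : ℝ) ≤ (3 : ℝ) ^ (r + 1) - 1 := by rw [h6]; linarith
    refine le_trans ?_ (mul_le_mul_of_nonneg_right ih h7)
    rw [e1, pow_add (3 : ℝ) (r * (r + 1) / 2) (r + 1)]
    have h8 : (1 / 2 + 1 / (2 * 3 ^ (r + 1)) : ℝ) * 3 ^ (r + 1) ≤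
        (1 / 2 + 1 / (2 * 3 ^ r) : ℝ) * (3 ^ (r + 1) - 1) := by
      rw [h6]
      have e2 : (1 / 2 + 1 / (2 * (3 * 3 ^ r)) : ℝ) * (3 * 3 ^ r) = (3 * 3 ^ r) / 2 + 1 / 2 := by
        field_simp
      have e3 : (1 / 2 + 1 / (2 * 3 ^ r) : ℝ) * (3 * 3 ^ r - 1) =
          (3 * 3 ^ r) / 2 + 1 - 1 / (2 * 3 ^ r) := by
        field_simp
        ring
      rw [e2, e3]
      have h9 : 1 / (2 * 3 ^ r) ≤ (1 / 2 : ℝ) := by
        rw [div_le_div_iff₀ (by positivity) (by norm_num)]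
        linarith
      linarith
    have h10 : (0 : ℝ) ≤ 3 ^ (r * (r + 1) / 2) := by positivity
    calc (1 / 2 + 1 / (2 * 3 ^ (r + 1)) : ℝ) * (3 ^ (r * (r + 1) / 2) * 3 ^ (r + 1))
        = ((1 / 2 + 1 / (2 * 3 ^ (r + 1)) : ℝ) * 3 ^ (r + 1)) * 3 ^ (r * (r + 1) / 2) := by ring
      _ ≤ ((1 / 2 + 1 / (2 * 3 ^ r) : ℝ) * (3 ^ (r + 1) - 1)) * 3 ^ (r * (r + 1) / 2) :=
        mul_le_mul_of_nonneg_right h8 h10
      _ = (1 / 2 + 1 / (2 * 3 ^ r) : ℝ) * 3 ^ (r * (r + 1) / 2) * (3 ^ (r + 1) - 1) := by ring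

lemma c9_lt : Pool.Agent.Y703.XK.c9 < 0.6391 := Pool.Agent.Y703.XL.t_C9.2.2.2.2

lemma c9_pos : 0 < Pool.Agent.Y703.XK.c9 := Pool.Agent.Y703.XL.t_C9.2.1

lemma prob_nonneg (r : ℕ) : 0 ≤ prob r := by
  show 0 ≤ Pool.Agent.Y703.XK.c9 / _
  have h1 := prod_low r
  have h2 : (0 : ℝ) < (1 / 2 + 1 / (2 * 3 ^ r) : ℝ) * 3 ^ (r * (r + 1) / 2) := by positivity
  exact div_nonneg c9_pos.le (h2.le.trans h1)

lemma prob_le (r : ℕ) : prob r ≤ 1.2782 / 3 ^ (r * (r + 1) / 2) := by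
  show Pool.Agent.Y703.XK.c9 / _ ≤ _
  have h1 := prod_low r
  have h2 : (0 : ℝ) < (3 : ℝ) ^ (r * (r + 1) / 2) := by positivity
  have h3 : (1 / 2 : ℝ) * 3 ^ (r * (r + 1) / 2) ≤
      ∏ i ∈ Finset.range r, ((3 : ℝ) ^ (i + 1) - 1) := by
    refine le_trans (mul_le_mul_of_nonneg_right ?_ h2.le) h1
    have : (0 : ℝ) ≤ 1 / (2 * 3 ^ r) := by positivity
    linarith
  have h4 : (0 : ℝ) < (1 / 2 : ℝ) * 3 ^ (r * (r + 1) / 2) := by positivity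
  calc Pool.Agent.Y703.XK.c9 / ∏ i ∈ Finset.range r, ((3 : ℝ) ^ (i + 1) - 1)
      ≤ Pool.Agent.Y703.XK.c9 / ((1 / 2 : ℝ) * 3 ^ (r * (r + 1) / 2)) :=
        div_le_div_of_nonneg_left c9_pos.le h4 h3
    _ ≤ 0.6391 / ((1 / 2 : ℝ) * 3 ^ (r * (r + 1) / 2)) :=
        div_le_div_of_nonneg_right c9_lt.le h4.le
    _ = 1.2782 / 3 ^ (r * (r + 1) / 2) := by
        field_simp
        norm_num

/-- the tail -/
lemma tail_le (r : ℕ) : 1 - ∑ s ∈ Finset.range (r + 1), prob s ≤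
    1.5 / 3 ^ ((r + 1) * (r + 2) / 2) := by
  have hs : HasSum prob 1 := Pool.Agent.Y703.XL.t_SUM'
  have h1 : (∑ s ∈ Finset.range (r + 1), prob s) + ∑' s, prob (s + (r + 1)) = 1 := by
    rw [hs.summable.sum_add_tsum_nat_add, hs.tsum_eq]
  have h2 : ∀ s : ℕ, prob (s + (r + 1)) ≤
      (1.2782 / 3 ^ ((r + 1) * (r + 2) / 2)) * (1 / 9) ^ s := by
    intro s
    refine (prob_le _).trans ?_
    have e1 : (r + 1) * (r + 2) / 2 + 2 * s ≤ (s + (r + 1)) * (s + (r + 1) + 1) / 2 := by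
      rw [Nat.le_div_iff_mul_le (by norm_num), add_mul]
      have h3 := Nat.div_mul_le_self ((r + 1) * (r + 2)) 2
      have h5 : (r + 1) * (r + 2) + 2 * s * 2 ≤ (s + (r + 1)) * (s + (r + 1) + 1) := by
        have : (s + (r + 1)) * (s + (r + 1) + 1) =
          (r + 1) * (r + 2) + (s * s + 2 * s * (r + 1) + s) := by ring
        rw [this]
        have h6 : s ≤ s * s := Nat.le_mul_self s
        nlinarith [Nat.zero_le (s * r)]
      omega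
    have h3 : (3 : ℝ) ^ ((r + 1) * (r + 2) / 2) * 9 ^ s ≤
        3 ^ ((s + (r + 1)) * (s + (r + 1) + 1) / 2) := by
      have : (9 : ℝ) ^ s = 3 ^ (2 * s) := by rw [pow_mul]; norm_num
      rw [this, ← pow_add]
      exact pow_le_pow_right₀ (by norm_num) e1
    calc (1.2782 : ℝ) / 3 ^ ((s + (r + 1)) * (s + (r + 1) + 1) / 2)
        ≤ 1.2782 / ((3 : ℝ) ^ ((r + 1) * (r + 2) / 2) * 9 ^ s) :=
          div_le_div_of_nonneg_left (by norm_num) (by positivity) h3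
      _ = _ := by rw [one_div, inv_pow]; field_simp
  have h3 : Summable fun s : ℕ => (1.2782 / 3 ^ ((r + 1) * (r + 2) / 2)) * (1 / 9 : ℝ) ^ s :=
    (summable_geometric_of_lt_one (by norm_num) (by norm_num)).mul_left _
  have h4 : Summable fun s : ℕ => prob (s + (r + 1)) :=
    Summable.of_nonneg_of_le (fun s => prob_nonneg _) h2 h3
  have h5 : ∑' s, prob (s + (r + 1)) ≤
      ∑' s : ℕ, (1.2782 / 3 ^ ((r + 1) * (r + 2) / 2)) * (1 / 9 : ℝ) ^ s :=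
    h4.tsum_le_tsum h2 h3
  rw [tsum_mul_left, tsum_geometric_of_lt_one (by norm_num) (by norm_num)] at h5
  have h6 : (1.2782 / 3 ^ ((r + 1) * (r + 2) / 2)) * (1 - 1 / 9 : ℝ)⁻¹ ≤
      1.5 / 3 ^ ((r + 1) * (r + 2) / 2) := by
    rw [div_mul_eq_mul_div]
    exact div_le_div_of_nonneg_right (by norm_num) (by positivity)
  linarith

section
variable {K : Type} [Field K] [NumberField K] [IsCyclotomicExtension {3} ℚ K]

lemma fin_cls (X : ℕ) : {D : 𝓞 K | Algebra.norm ℤ D ≤ X ∧ ClsK D}.Finite := by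
  obtain ⟨⟨j, hj⟩, -⟩ := Pool.Agent.Y455.CTK.jex K
  rw [Pool.Agent.Y703.XL.setK j hj ClsK (cls_iff j hj) X]
  exact (Finset.finite_toSet _).image _

end

/-- the average of `3 ^ (rank / 2)` -/
theorem avg_pow (K : Type) [Field K] [NumberField K] [IsCyclotomicExtension {3} ℚ K] (ε : ℝ)
    (hε : 0 < ε) : ∃ X₀ : ℕ, ∀ X : ℕ, X₀ ≤ X →
      ∑ᶠ D ∈ {D : 𝓞 K | Algebra.norm ℤ D ≤ X ∧ ClsK D}, (√3) ^ rkD (D : K) ≤
        (2 + ε) * ({D : 𝓞 K | Algebra.norm ℤ D ≤ X ∧ ClsK D}.ncard : ℝ) := by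
  obtain ⟨-, h2, -, -, h5, -⟩ := finalXL K
  have h6 := (tendsto_order.1 h5).2 (6 + 3 * ε) (by linarith)
  obtain ⟨X₀, h7⟩ := Filter.eventually_atTop.1 h6
  refine ⟨X₀, fun X hX => ?_⟩
  have h8 := h7 X hX
  have hfin := fin_cls (K := K) X
  rcases Nat.eq_zero_or_pos {D : 𝓞 K | Algebra.norm ℤ D ≤ X ∧ ClsK D}.ncard with h0 | h0
  · have h9 : {D : 𝓞 K | Algebra.norm ℤ D ≤ X ∧ ClsK D} = ∅ := (Set.ncard_eq_zero hfin).1 h0
    rw [h9, finsum_mem_empty, Set.ncard_empty, Nat.cast_zero, mul_zero]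
  · have h9 : (0 : ℝ) < ({D : 𝓞 K | Algebra.norm ℤ D ≤ X ∧ ClsK D}.ncard : ℝ) := by
      exact_mod_cast h0
    rw [div_lt_iff₀ h9] at h8
    have h10 : ∑ᶠ D ∈ {D : 𝓞 K | Algebra.norm ℤ D ≤ X ∧ ClsK D}, (√3) ^ rkD (D : K) ≤
        (1 / 3) * ∑ᶠ D ∈ {D : 𝓞 K | Algebra.norm ℤ D ≤ X ∧ ClsK D},
          ((SelK (D : K)).ncard : ℝ) := by
      rw [finsum_mem_eq_finite_toFinset_sum _ hfin, finsum_mem_eq_finite_toFinset_sum _ hfin,
        Finset.mul_sum]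
      refine Finset.sum_le_sum fun D hD => ?_
      rw [Set.Finite.mem_toFinset] at hD
      obtain ⟨-, ⟨r, h11, h12⟩, -⟩ := h2 D hD.2
      have h13 : (1 : ℝ) ≤ √3 := by
        rw [Real.one_le_sqrt]
        norm_num
      calc (√3) ^ rkD (D : K) ≤ (√3) ^ (2 * r) := pow_le_pow_right₀ h13 h12
        _ = 3 ^ r := by rw [pow_mul, Real.sq_sqrt (by norm_num)]
        _ = (1 / 3) * ((SelK (D : K)).ncard : ℝ) := by
            rw [h11, Nat.cast_pow, pow_succ]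
            push_cast
            ring
    linarith

/-- the small ranks -/
theorem low_rank (K : Type) [Field K] [NumberField K] [IsCyclotomicExtension {3} ℚ K] (r : ℕ)
    (ε : ℝ) (hε : 0 < ε) : ∃ X₀ : ℕ, ∀ X : ℕ, X₀ ≤ X →
      (∑ s ∈ Finset.range (r + 1), prob s - ε) *
        ({D : 𝓞 K | Algebra.norm ℤ D ≤ X ∧ ClsK D}.ncard : ℝ) ≤
      ({D : 𝓞 K | Algebra.norm ℤ D ≤ X ∧ ClsK D ∧ rkD (D : K) ≤ 2 * r}.ncard : ℝ) := by
  obtain ⟨-, h2, h3, -, -, -⟩ := finalXL K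
  have h4 : Filter.Tendsto (fun X : ℕ => ∑ s ∈ Finset.range (r + 1),
      ({D : 𝓞 K | Algebra.norm ℤ D ≤ X ∧ ClsK D ∧ (SelK (D : K)).ncard = 3 ^ (s + 1)}.ncard : ℝ) /
        ({D : 𝓞 K | Algebra.norm ℤ D ≤ X ∧ ClsK D}.ncard : ℝ)) Filter.atTop
      (nhds (∑ s ∈ Finset.range (r + 1), prob s)) := tendsto_finsetSum _ fun s _ => h3 s
  have h6 := (tendsto_order.1 h4).1 (∑ s ∈ Finset.range (r + 1), prob s - ε) (by linarith)
  obtain ⟨X₀, h7⟩ := Filter.eventually_atTop.1 h6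
  refine ⟨X₀, fun X hX => ?_⟩
  have h8 := h7 X hX
  have hfin := fin_cls (K := K) X
  rcases Nat.eq_zero_or_pos {D : 𝓞 K | Algebra.norm ℤ D ≤ X ∧ ClsK D}.ncard with h0 | h0
  · rw [h0, Nat.cast_zero, mul_zero]
    exact Nat.cast_nonneg _
  · have h9 : (0 : ℝ) < ({D : 𝓞 K | Algebra.norm ℤ D ≤ X ∧ ClsK D}.ncard : ℝ) := by
      exact_mod_cast h0
    rw [← Finset.sum_div, lt_div_iff₀ h9] at h8
    refine h8.le.trans ?_
    rw [← Nat.cast_sum, Nat.cast_le]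
    have hsub : ∀ s : ℕ, {D : 𝓞 K | Algebra.norm ℤ D ≤ X ∧ ClsK D ∧
        (SelK (D : K)).ncard = 3 ^ (s + 1)} =
        (hfin.toFinset.filter fun D => (SelK (D : K)).ncard = 3 ^ (s + 1) : Finset (𝓞 K)) := by
      intro s
      ext D
      rw [Finset.mem_coe, Finset.mem_filter, Set.Finite.mem_toFinset]
      exact and_assoc.symm
    have hsub2 : {D : 𝓞 K | Algebra.norm ℤ D ≤ X ∧ ClsK D ∧ rkD (D : K) ≤ 2 * r} =
        (hfin.toFinset.filter fun D => rkD (D : K) ≤ 2 * r : Finset (𝓞 K)) := by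
      ext D
      rw [Finset.mem_coe, Finset.mem_filter, Set.Finite.mem_toFinset]
      exact and_assoc.symm
    simp only [hsub, hsub2, Set.ncard_coe_finset]
    rw [← Finset.card_biUnion]
    · refine Finset.card_le_card fun D hD => ?_
      rw [Finset.mem_biUnion] at hD
      obtain ⟨s, hs, hD⟩ := hD
      rw [Finset.mem_filter] at hD ⊢
      refine ⟨hD.1, ?_⟩
      have h10 := (Set.Finite.mem_toFinset hfin).1 hD.1
      obtain ⟨-, ⟨t, h11, h12⟩, -⟩ := h2 D h10.2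
      rw [hD.2] at h11
      have h13 : s + 1 = t + 1 := Nat.pow_right_injective (le_refl 2 |>.trans (by norm_num)) h11
      have h14 : s < r + 1 := Finset.mem_range.1 hs
      have h15 : rkD (D : K) ≤ 2 * t := h12
      omega
    · intro s _ t _ hst
      rw [Function.onFun, Finset.disjoint_left]
      intro D h10 h11
      rw [Finset.mem_filter] at h10 h11
      have h12 := h10.2.symm.trans h11.2
      have h13 : s + 1 = t + 1 := Nat.pow_right_injective (le_refl 2 |>.trans (by norm_num)) h12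
      exact hst (Nat.succ_injective h13)

/-- the final statement about the ranks -/
theorem finalRk (K : Type) [Field K] [NumberField K] [IsCyclotomicExtension {3} ℚ K] :
    (∃ c : ℝ, 0 < c ∧ ∃ X₀ : ℕ, ∀ X : ℕ, X₀ ≤ X →
      c * X ≤ ({D : 𝓞 K | Algebra.norm ℤ D ≤ X ∧ ClsK D}.ncard : ℝ)) ∧
    (∀ ε : ℝ, 0 < ε → ∃ X₀ : ℕ, ∀ X : ℕ, X₀ ≤ X →
      ∑ᶠ D ∈ {D : 𝓞 K | Algebra.norm ℤ D ≤ X ∧ ClsK D}, (√3) ^ rkD (D : K) ≤
        (2 + ε) * ({D : 𝓞 K | Algebra.norm ℤ D ≤ X ∧ ClsK D}.ncard : ℝ)) ∧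
    (∃ X₀ : ℕ, ∀ X : ℕ, X₀ ≤ X →
      ∑ᶠ D ∈ {D : 𝓞 K | Algebra.norm ℤ D ≤ X ∧ ClsK D}, (rkD (D : K) : ℝ) ≤
        0.809 * ({D : 𝓞 K | Algebra.norm ℤ D ≤ X ∧ ClsK D}.ncard : ℝ)) ∧
    (∀ (r : ℕ) (ε : ℝ), 0 < ε → ∃ X₀ : ℕ, ∀ X : ℕ, X₀ ≤ X →
      (∑ s ∈ Finset.range (r + 1), prob s - ε) *
        ({D : 𝓞 K | Algebra.norm ℤ D ≤ X ∧ ClsK D}.ncard : ℝ) ≤
      ({D : 𝓞 K | Algebra.norm ℤ D ≤ X ∧ ClsK D ∧ rkD (D : K) ≤ 2 * r}.ncard : ℝ)) ∧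
    (0.639 < prob 0 ∧ prob 0 < 0.6391 ∧ HasSum prob 1) ∧
    ∀ r : ℕ, 1 - 1.5 / 3 ^ ((r + 1) * (r + 2) / 2) ≤ ∑ s ∈ Finset.range (r + 1), prob s := by
  obtain ⟨h1, -, -, h4, -, h6⟩ := finalXL K
  refine ⟨h1, avg_pow K, h6, low_rank K, h4, fun r => ?_⟩
  have := tail_le r
  linarith

end Pool.Agent.XL6
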