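import Pool.Agent.Y696.XL.Fin
import Pool.Agent.Y703.XL.AvgK
import Pool.Agent.Y703.XL.Fin

/-!
# Project XL: the final statement over `K`, with the averages
-/

set_option autoImplicit false
set_option linter.unusedVariables false

open scoped Classical

namespace Pool.Agent.XL6

open NumberField IsDedekindDomain WeierstrassCurve
open Pool.Agent.Y692.QS (Ei)
open Pool.Agent.Y703.CT
open Pool.Agent.Y715.T.Rec (cs nn)
open Pool.Agent.Y696.CTK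
open Pool.Agent.Y696.XK (RkZ rkz_of disc_ED cls_iff img_ncard good_tri)
open Pool.Agent.Y703.XL (nS cr S_LAW)

/-- the limits -/
noncomputable def prob (r : ℕ) : ℝ :=
  (∏' i : ℕ, (1 - (1 / 3 : ℝ) ^ (2 * i + 1))) / ∏ i ∈ Finset.range r, ((3 : ℝ) ^ (i + 1) - 1)

lemma prob_eq : prob = cr := rfl

/-- the final statement -/
theorem finalXL (K : Type) [Field K] [NumberField K] [IsCyclotomicExtension {3} ℚ K] :
    (∃ c : ℝ, 0 < c ∧ ∃ X₀ : ℕ, ∀ X : ℕ, X₀ ≤ X →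
      c * X ≤ ({D : 𝓞 K | Algebra.norm ℤ D ≤ X ∧ ClsK D}.ncard : ℝ)) ∧
    (∀ D : 𝓞 K, ClsK D →
      ((∃ (ω : 𝓞 K) (n : ℕ) (π : Fin n → 𝓞 K) (χ : Fin n → Fin n → ZMod 3),
        ω ^ 2 + ω + 1 = 0 ∧ IsFact ω D n π χ) ∧
      ∀ (ω : 𝓞 K) (n : ℕ) (π : Fin n → 𝓞 K) (χ : Fin n → Fin n → ZMod 3),
        ω ^ 2 + ω + 1 = 0 → IsFact ω D n π χ → (SelK (D : K)).ncard = nL χ) ∧
      (∃ r : ℕ, (SelK (D : K)).ncard = 3 ^ (r + 1) ∧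
        Module.finrank ℤ (ED (D : K)).toAffine.Point ≤ 2 * r) ∧
      ((SelK (D : K)).ncard = 3 ↔ Tri D)) ∧
    (∀ r : ℕ, Filter.Tendsto (fun X : ℕ =>
      ({D : 𝓞 K | Algebra.norm ℤ D ≤ X ∧ ClsK D ∧ (SelK (D : K)).ncard = 3 ^ (r + 1)}.ncard : ℝ) /
        ({D : 𝓞 K | Algebra.norm ℤ D ≤ X ∧ ClsK D}.ncard : ℝ)) Filter.atTop (nhds (prob r))) ∧
    (0.639 < prob 0 ∧ prob 0 < 0.6391 ∧ HasSum prob 1) ∧
    Filter.Tendsto (fun X : ℕ =>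
      (∑ᶠ D ∈ {D : 𝓞 K | Algebra.norm ℤ D ≤ X ∧ ClsK D}, ((SelK (D : K)).ncard : ℝ)) /
        ({D : 𝓞 K | Algebra.norm ℤ D ≤ X ∧ ClsK D}.ncard : ℝ)) Filter.atTop (nhds 6) ∧
    ∃ X₀ : ℕ, ∀ X : ℕ, X₀ ≤ X →
      ∑ᶠ D ∈ {D : 𝓞 K | Algebra.norm ℤ D ≤ X ∧ ClsK D},
        (Module.finrank ℤ (ED (D : K)).toAffine.Point : ℝ) ≤
      0.809 * ({D : 𝓞 K | Algebra.norm ℤ D ≤ X ∧ ClsK D}.ncard : ℝ) := by
  obtain ⟨h1, h2, -⟩ := Pool.Agent.Y696.CTK.final K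
  have hc9 := Pool.Agent.Y703.XL.t_C9
  have hp0 : prob 0 = Pool.Agent.Y703.XK.c9 := by
    unfold prob Pool.Agent.Y703.XK.c9
    rw [Finset.prod_range_zero, div_one]
  refine ⟨h1, fun D hD => ?_, fun r => ?_, ⟨?_, ?_, ?_⟩, ?_, ?_⟩
  · obtain ⟨a1, a2, a3⟩ := oneK hD
    exact ⟨⟨(h2 D hD).2.1, a3⟩, a1, a2⟩
  · exact lawK Pool.Agent.Y703.XL.t_LAW K r
  · rw [hp0]
    exact hc9.2.2.2.1
  · rw [hp0]
    exact hc9.2.2.2.2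
  · exact Pool.Agent.Y703.XL.t_SUM'
  · obtain ⟨⟨j, hj⟩, -⟩ := Pool.Agent.Y455.CTK.jex K
    exact Pool.Agent.Y703.XL.avgK j (fun D : 𝓞 K => (SelK (D : K)).ncard)
      (fun D hD => selK_nS j hj hD) hj ClsK (cls_iff j hj)
  · obtain ⟨⟨j, hj⟩, -⟩ := Pool.Agent.Y455.CTK.jex K
    refine Filter.eventually_atTop.1 (Pool.Agent.Y703.XL.rankK j Pool.Agent.Y703.XL.t_LAW hc9
      (fun D : 𝓞 K => Module.finrank ℤ (ED (D : K)).toAffine.Point) (fun D hD r hr => ?_) hj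
      ClsK (cls_iff j hj))
    obtain ⟨⟨s, h3, h4⟩, -, -⟩ := oneK (K := K) ((cls_iff j hj D).2 hD)
    rw [selK_nS j hj hD, hr] at h3
    have h5 : s + 1 = r + 1 := Nat.pow_right_injective (le_refl 2 |>.trans (by norm_num)) h3.symm
    have h6 : s = r := Nat.succ_injective h5
    rw [← h6]
    exact h4

end Pool.Agent.XL6
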