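import Pool.Agent.Y696.XL.Bk

/-!
# The order of vanishing and the Bloch–Kato Selmer group for cubic twists
-/

set_option autoImplicit false
set_option linter.unusedVariables false

open scoped Classical

namespace Pool.Agent.XL6

open NumberField IsDedekindDomain WeierstrassCurve
open Pool.Agent.Y692.QS (Ei)
open Pool.Agent.Y703.CT
open Pool.Agent.Y696.CTK
open Pool.Agent.Y696.CTE (final9)
open Pool.Agent.Y696.XK (RkZ rkz_of disc_ED cls_iff img_ncard good_tri)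
open Pool.Agent.TH841.SH.D (Gal act Pt)
open Pool.Agent.Y667.BKP (PSeq IsV H1f exists_rat)

/-- `H⁰(F, V_3 W)` is zero -/
def H0Z {F : Type} [Field F] (W : WeierstrassCurve F) : Prop :=
  ∀ x : PSeq W, IsV 3 W x → (∀ (σ : Gal F) (n : ℕ), act W σ.toAlgHom (x n) = x n) → ∀ n, x n = 0

lemma h0_of {F : Type} [Field F] [NumberField F] {W : WeierstrassCurve F}
    (hfin : Finite W.toAffine.Point) : H0Z W := by
  intro x hx hfix n
  obtain ⟨j, -, -, hj⟩ := exists_rat W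
  obtain ⟨N, hN⟩ : ∃ N : ℕ, N = Nat.card W.toAffine.Point := ⟨_, rfl⟩
  have hN0 : N ≠ 0 := by
    rw [hN]
    exact Nat.card_pos.ne'
  obtain ⟨v, N', hndvd, hNv⟩ := Nat.exists_eq_pow_mul_and_not_dvd hN0 3 (by norm_num)
  have hpow : ∀ k : ℕ, (3 ^ k : ℕ) • x (n + k) = x n := by
    intro k
    induction k with
    | zero => simp
    | succ k ih => rw [pow_succ, mul_smul, ← add_assoc, (hx (n + k)).1, ih]
  have h1 : N • x (n + v) = 0 := by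
    obtain ⟨q, hq⟩ := hj (x (n + v)) (fun σ => hfix σ (n + v))
    rw [← hq, ← map_nsmul, hN, card_nsmul_eq_zero', map_zero]
  have h2 : N' • x n = 0 := by
    rw [← hpow v, smul_smul, mul_comm, ← hNv, h1]
  obtain ⟨m, hm⟩ := (hx n).2
  have h3 := Nat.dvd_gcd (addOrderOf_dvd_iff_nsmul_eq_zero.2 h2)
    (addOrderOf_dvd_iff_nsmul_eq_zero.2 hm)
  have h4 : Nat.gcd N' (3 ^ m) = 1 :=
    ((Nat.Prime.coprime_iff_not_dvd Nat.prime_three).2 hndvd).symm.pow_right m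
  rw [h4, Nat.dvd_one, AddMonoid.addOrderOf_eq_one_iff] at h3
  exact h3

/-- the formula, with both sides equal to zero -/
def OV {F : Type} [Field F] [NumberField F] (W : WeierstrassCurve F) : Prop :=
  W.IsElliptic ∧
  (∃ L : ℂ → ℂ, Differentiable ℂ L ∧ (∀ s : ℂ, (3 / 2 : ℝ) < s.re → L s = W.LSeries s) ∧
    L 1 ≠ 0) ∧ H0Z W ∧ ∀ x : H1f 3 W, x = 0

/-- analytic continuation -/
def Cont {F : Type} [Field F] [NumberField F] (W : WeierstrassCurve F) : Prop :=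
  ∃ L : ℂ → ℂ, Differentiable ℂ L ∧ ∀ s : ℂ, (3 / 2 : ℝ) < s.re → L s = W.LSeries s

/-- the statement -/
theorem finalOV (K : Type) [Field K] [NumberField K] [IsCyclotomicExtension {3} ℚ K] :
    (∃ c : ℝ, 0 < c ∧ ∃ X₀ : ℕ, ∀ X : ℕ, X₀ ≤ X →
      c * X ≤ ({D : 𝓞 K | Algebra.norm ℤ D ≤ X ∧ ClsK D}.ncard : ℝ)) ∧
    (∀ D : 𝓞 K, ClsK D → CritK D ∧ Cont (ED (D : K)) ∧
      (∃ (F : Type) (_ : Field F) (_ : NumberField F) (_ : Algebra K F) (θ : F),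
        Module.finrank K F = 3 ∧ θ ^ 3 = algebraMap K F D) ∧
      (∀ (F : Type) [Field F] [NumberField F] [Algebra K F] (θ : F),
        Module.finrank K F = 3 → θ ^ 3 = algebraMap K F D → Cont (ED (1 : F))) ∧
      (Tri D → OV (ED (D : K)) ∧
        ∀ (F : Type) [Field F] [NumberField F] [Algebra K F] (θ : F),
          Module.finrank K F = 3 → θ ^ 3 = algebraMap K F D → OV (ED (1 : F)))) ∧
    Filter.Tendsto (fun X : ℕ =>
      ({D : 𝓞 K | Algebra.norm ℤ D ≤ X ∧ ClsK D ∧ Tri D}.ncard : ℝ) /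
        ({D : 𝓞 K | Algebra.norm ℤ D ≤ X ∧ ClsK D}.ncard : ℝ)) Filter.atTop
      (nhds (∏' i : ℕ, (1 - (1 / 3 : ℝ) ^ (2 * i + 1)))) ∧
    (0.639 : ℝ) < ∏' i : ℕ, (1 - (1 / 3 : ℝ) ^ (2 * i + 1)) ∧
    ∏' i : ℕ, (1 - (1 / 3 : ℝ) ^ (2 * i + 1)) < 0.6391 := by
  obtain ⟨h1, h2, h3, h4⟩ := finalBK K
  obtain ⟨-, a2, -⟩ := final9 K
  obtain ⟨-, c2, -⟩ := Pool.Agent.Y696.CTK.final K
  refine ⟨h1, fun D hD => ⟨(h2 D hD).1, ?_, (h2 D hD).2.1, ?_, fun ht => ⟨?_, ?_⟩⟩, h3, h4⟩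
  · obtain ⟨⟨-, -, Lf, c, b1, b2, b3, -⟩, -⟩ := c2 D hD
    exact ⟨Lf, b1, fun s hs => (b2 s hs).2⟩
  · intro F _ _ _ θ hd hθ
    obtain ⟨⟨Lf, b1, b2⟩, -⟩ := (a2 D hD).2.2 F θ hd hθ
    exact ⟨Lf, b1, fun s hs => (b2 s hs).2⟩
  · obtain ⟨e1, -, e3⟩ := ((h2 D hD).2.2 ht).1
    obtain ⟨⟨-, -, Lf, c, b1, b2, b3, -⟩, -⟩ := c2 D hD
    exact ⟨e1, ⟨Lf, b1, fun s hs => (b2 s hs).2, b3 ht⟩, h0_of ht.1, e3⟩
  · intro F _ _ _ θ hd hθ
    obtain ⟨e1, -, e3⟩ := ((h2 D hD).2.2 ht).2 F θ hd hθ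
    obtain ⟨⟨ω, n, π, χ, hω, hf⟩, hcr⟩ := (h2 D hD).1
    have hlap := (hcr ω n π χ hω hf).1 ht
    obtain ⟨⟨⟨Lf, b1, b2, b3⟩, c4, -⟩, -⟩ := ((a2 D hD).2.2 F θ hd hθ).2 ω n π χ hω hf hlap
    exact ⟨e1, ⟨Lf, b1, fun s hs => (b2 s hs).2, b3⟩, h0_of c4, e3⟩

end Pool.Agent.XL6
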