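import Pool.Agent.Y696.XL.Rk
import Pool.Agent.Y350.CTK.Mw
import Pool.Agent.Y696.XK.Ge3

/-!
# Project XL: the Selmer group and the rank over `K`
-/

set_option autoImplicit false
set_option linter.unusedSectionVars false

open scoped Classical

namespace Pool.Agent.XL6

open NumberField IsDedekindDomain WeierstrassCurve
open Pool.Agent.Y692.QS (Ei w toC)
open Pool.Agent.Y703.CT
open Pool.Agent.Y715.T.Gi Pool.Agent.Y715.T.Nr Pool.Agent.Y715.T.Df Pool.Agent.Y715.T.Ell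
open Pool.Agent.TH841.SH.D (Gal Coch IsCoc LocTriv cob)
open Pool.Agent.Y696.CTK
open Pool.Agent.Y155.CT (a_mul a_cont AG AG_fg)
open Pool.Agent.Y350.CTK.Mw (act_act act_inj)

variable {K : Type} [Field K] [NumberField K] {j : Ei ≃+* 𝓞 K} {D : Ei}
  {e : AlgebraicClosure K ≃+* QB} {i₀ : QB} {hi : i₀ ^ 2 + i₀ + 1 = 0} {u : QB}
  {a : GK i₀ → ZMod 3}
  {Ψ : Pool.Agent.TH841.SH.D.Pt (ED (j D : K)) (AlgebraicClosure K) ≃+ Pt QB}
  {g : Pool.Agent.TH841.SH.D.Gal K ≃* GK i₀}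

/-- the rank over `K` -/
theorem rk_le (hD : D ≠ 0) (hTr : TrfData K j D e i₀ hi u a Ψ g) :
    Module.finrank ℤ (ED (j D : K)).toAffine.Point ≤ Module.finrank ℤ (AG hi a) := by
  obtain ⟨hTw, he, hgc, hgsc, hge, hΨ, hact⟩ := hTr
  have hfg := AG_fg (hi := hi) (a_mul hD hTw) (a_cont hD hTw)
  let φ : K →ₐ[K] AlgebraicClosure K := Algebra.ofId K (AlgebraicClosure K)
  let em : Pool.Agent.TH841.SH.D.Pt (ED (j D : K)) K →+ Pt QB :=
    Ψ.toAddMonoidHom.comp (Pool.Agent.TH841.SH.D.act (ED (j D : K)) φ)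
  have hinj : Function.Injective em := Ψ.injective.comp (act_inj _ φ)
  have hfix : ∀ (P : Pool.Agent.TH841.SH.D.Pt (ED (j D : K)) K) (σ : GK i₀),
      Pool.Agent.Y703.CT.act hi a σ (em P) = em P := by
    intro P σ
    have h1 := hact (g.symm σ) (Pool.Agent.TH841.SH.D.act (ED (j D : K)) φ P)
    rw [g.apply_symm_apply] at h1
    refine h1.symm.trans ?_
    rw [act_act]
    have h2 : ((g.symm σ).toAlgHom).comp φ = φ := by
      refine AlgHom.ext fun x => ?_
      exact (g.symm σ).commutes x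
    rw [h2]
    rfl
  let em' : Pool.Agent.TH841.SH.D.Pt (ED (j D : K)) K →+ AG hi a :=
    { toFun := fun P => ⟨em P, fun σ => hfix P σ⟩
      map_zero' := Subtype.ext (map_zero em)
      map_add' := fun P Q => Subtype.ext (map_add em P Q) }
  have h1 : Module.finrank ℤ (Pool.Agent.TH841.SH.D.Pt (ED (j D : K)) K) ≤
      Module.finrank ℤ (AG hi a) :=
    LinearMap.finrank_le_finrank_of_injective (f := em'.toIntLinearMap) fun P Q h =>
      hinj (congrArg Subtype.val h)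
  exact h1

section
variable {J : Type} [Fintype J] [Nonempty J] {π : J → Ei}

/-- **The Selmer group and the rank, for `D = ∏ π`.** -/
theorem main_pi (P : Parts) (hD : Dt π (fun _ => 1))
    (h9 : ¬ (9 : ℤ) ∣ Pool.Agent.Y692.QS.nr (pD π (fun _ => 1)) - 1) (j : Ei ≃+* 𝓞 K) :
    (SelK (j (pD π (fun _ => 1)) : K)).ncard = (KerV π (fun _ => 1)).ncard ∧
    ∀ r : ℕ, (KerV π (fun _ => 1)).ncard ≤ 3 ^ (r + 1) →
      Module.finrank ℤ (ED (j (pD π (fun _ => 1)) : K)).toAffine.Point ≤ 2 * r := by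
  have hne : pD π (fun _ => 1) ≠ 0 := Pool.Agent.Y153.CTRAM.ne_zero_of hD
  obtain ⟨e, i₀, hi, u, a, Ψ, g, hdata⟩ := P.trf K j _ hne
  have hT := hdata.1
  have h1 : (SelH hi a).ncard = (KerV π (fun _ => 1)).ncard := sel_card hD h9 hT
  refine ⟨(selK_card hne hdata).trans h1, fun r hr => ?_⟩
  have hpos : (KerV π (fun _ => 1)).ncard ≠ 0 := by
    have h0 : (0 : J → ZMod 3) ∈ KerV π (fun _ => 1) := fun j => by simp
    exact Set.ncard_ne_zero_of_mem h0 (Set.toFinite _)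
  have hfin : (SelH hi a).Finite := Set.finite_of_ncard_ne_zero (by rw [h1]; exact hpos)
  exact (rk_le hne hdata).trans (rank_le (a_mul hne hT) (a_cont hne hT) (a_ne hD hT) hfin
    (by rw [h1]; exact hr))

end

end Pool.Agent.XL6
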