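import Mathlib
import Pool.Agent.Y696.XL.Asm
import Pool.Agent.Y696.XK.Fin
import Pool.Agent.Y703.XL.Stm

/-!
# Project XL: the final statement over `K`
-/

set_option autoImplicit false
set_option linter.unusedVariables false

open scoped Classical

namespace Pool.Agent.XL6

open NumberField IsDedekindDomain WeierstrassCurve
open Pool.Agent.Y692.QS (Ei)
open Pool.Agent.Y703.CT
open Pool.Agent.Y715.T.Rec (cs nn)
open Pool.Agent.Y696.CTK
open Pool.Agent.Y696.XK (RkZ rkz_of disc_ED cls_iff img_ncard good_tri)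
open Pool.Agent.Y703.XL (nS cr S_LAW)

/-- the number of the solutions of the Laplacian system of `χ` -/
noncomputable def nL {n : ℕ} (χ : Fin n → Fin n → ZMod 3) : ℕ :=
  Nat.card {v : Fin n → ZMod 3 // ∀ j, ∑ i, χ j i * (v i - v j) = 0}

/-- the number of the solutions for the set of the primary primes -/
lemma nS_eq {n : ℕ} {π : Fin (n + 1) → Ei} (hdt : Dt π (fun _ => 1)) :
    nS (ppr (pD π (fun _ => 1))) = (KerV π (fun _ => 1)).ncard := by
  have hinj := Pool.Agent.Y696.XK.inj_of hdt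
  rw [Pool.Agent.Y696.XK.ppr_eq hdt, ← Nat.card_coe_set_eq]
  unfold nS
  let e : Fin (n + 1) ≃ (Finset.univ.image π : Finset Ei) :=
    Equiv.ofBijective (fun i => ⟨π i, Finset.mem_image_of_mem _ (Finset.mem_univ i)⟩)
      ⟨fun i k h => hinj (congrArg Subtype.val h), fun x => by
        obtain ⟨i, -, hi⟩ := Finset.mem_image.1 x.2
        exact ⟨i, Subtype.ext hi⟩⟩
  have he : ∀ i, ((e i : (Finset.univ.image π : Finset Ei)) : Ei) = π i := fun i => rfl
  refine Nat.card_congr ((Equiv.arrowCongr e.symm (Equiv.refl (ZMod 3))).subtypeEquiv fun v => ?_)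
  show (∀ x : (Finset.univ.image π : Finset Ei), _) ↔
    ∀ j, ∑ i, (1 : ZMod 3) * cs (π j) (π i) * (v (e i) - v (e j)) = 0
  constructor
  · intro h j
    have h1 := h (e j)
    rw [← Equiv.sum_comp e] at h1
    rw [← h1]
    refine Finset.sum_congr rfl fun i _ => ?_
    rw [one_mul]
    rfl
  · intro h x
    obtain ⟨j, rfl⟩ := e.surjective x
    rw [← Equiv.sum_comp e, ← h j]
    refine Finset.sum_congr rfl fun i _ => ?_
    rw [one_mul]
    rfl

/-- the number of the solutions is a power of three, at least three -/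
lemma ker_pow {J : Type} [Fintype J] [Nonempty J] {π : J → Ei} :
    ∃ r : ℕ, (KerV π (fun _ => 1)).ncard = 3 ^ (r + 1) := by
  let V : Submodule (ZMod 3) (J → ZMod 3) :=
    { carrier := KerV π (fun _ => 1)
      zero_mem' := fun j => by simp
      add_mem' := fun {a b} ha hb j => by
        have h1 := ha j
        have h2 := hb j
        have h3 : ∑ i, (1 : ZMod 3) * cs (π j) (π i) * ((a + b) i - (a + b) j) =
            ∑ i, (1 : ZMod 3) * cs (π j) (π i) * (a i - a j) +
            ∑ i, (1 : ZMod 3) * cs (π j) (π i) * (b i - b j) := by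
          rw [← Finset.sum_add_distrib]
          exact Finset.sum_congr rfl fun i _ => by rw [Pi.add_apply, Pi.add_apply]; ring
        rw [h3, h1, h2, add_zero]
      smul_mem' := fun c a ha j => by
        have h1 := ha j
        have h3 : ∑ i, (1 : ZMod 3) * cs (π j) (π i) * ((c • a) i - (c • a) j) =
            c * ∑ i, (1 : ZMod 3) * cs (π j) (π i) * (a i - a j) := by
          rw [Finset.mul_sum]
          exact Finset.sum_congr rfl fun i _ => by
            rw [Pi.smul_apply, Pi.smul_apply, smul_eq_mul, smul_eq_mul]; ring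
        rw [h3, h1, mul_zero] }
  have h1 : (KerV π (fun _ => 1)).ncard = Nat.card V := (Nat.card_coe_set_eq _).symm
  have h2 : Nat.card V = 3 ^ Module.finrank (ZMod 3) V := by
    rw [Module.natCard_eq_pow_finrank (K := ZMod 3), Nat.card_zmod]
  have h3 : Module.finrank (ZMod 3) V ≠ 0 := by
    intro h0
    rw [h0, pow_zero] at h2
    have h4 : (fun _ => 1 : J → ZMod 3) ∈ V := fun j => by simp
    have h5 : Subsingleton V := (Nat.card_eq_one_iff_unique.1 h2).1
    have h6 : (⟨fun _ => 1, h4⟩ : V) = 0 := Subsingleton.elim _ _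
    have h7 := congrFun (congrArg Subtype.val h6) (Classical.arbitrary J)
    exact one_ne_zero h7
  obtain ⟨r, hr⟩ := Nat.exists_eq_succ_of_ne_zero h3
  exact ⟨r, by rw [h1, h2, hr]⟩

variable {K : Type} [Field K] [NumberField K] (j : Ei ≃+* 𝓞 K)

/-- the kernels (compare `Pool.Agent.Y696.CTK.ker_iff`) -/
lemma ker_ncard (hj : ∀ z : Ei, Algebra.norm ℤ (j z) = Pool.Agent.Y692.QS.nr z)
    {ω D : 𝓞 K} {n : ℕ} {π : Fin n → 𝓞 K} {χ : Fin n → Fin n → ZMod 3}
    (hω : ω ^ 2 + ω + 1 = 0) (h : IsFact ω D n π χ) :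
    (KerV (fun i => j.symm (π i)) (fun _ => (1 : ZMod 3))).ncard = nL χ := by
  obtain ⟨h1, h2, h3⟩ := h
  obtain ⟨ε, hε, hcs⟩ : ∃ ε : ZMod 3, ε ≠ 0 ∧ ∀ i k, i ≠ k →
      cs (j.symm (π k)) (j.symm (π i)) = ε * χ k i := by
    have hnn : ∀ k, nn (j.symm (π k)) = ((Algebra.norm ℤ (π k)).natAbs - 1) / 3 := by
      intro k
      unfold nn
      rw [← hj, RingEquiv.apply_symm_apply]
    have hww : (Pool.Agent.Y692.QS.w : Ei) ^ 2 + Pool.Agent.Y692.QS.w + 1 = 0 := by decide
    have hfac : (ω - j Pool.Agent.Y692.QS.w) * (ω - j (Pool.Agent.Y692.QS.w ^ 2)) = 0 := by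
      have e1 : (Pool.Agent.Y692.QS.w : Ei) ^ 2 = -Pool.Agent.Y692.QS.w - 1 := by
        linear_combination hww
      rw [e1, map_sub, map_neg, map_one]
      have e2 : (j Pool.Agent.Y692.QS.w) ^ 2 + j Pool.Agent.Y692.QS.w + 1 = 0 := by
        rw [← map_pow, ← map_one j, ← map_add, ← map_add, hww, map_zero]
      linear_combination hω - e2
    rcases mul_eq_zero.1 hfac with h4 | h4
    · refine ⟨1, one_ne_zero, fun i k hik => ?_⟩
      rw [one_mul]
      have hpq := pq_symm j (h1 k).1 (h1 k).2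
      apply Pool.Agent.Y715.T.RecG.cs_of hpq.prime hpq.norm
      have h5 := map_dvd j.symm (h3 i k hik)
      rw [sub_eq_zero.1 h4, map_sub, map_pow, map_pow, RingEquiv.symm_apply_apply, ← hnn k] at h5
      exact h5
    · refine ⟨-1, by decide, fun i k hik => ?_⟩
      rw [neg_one_mul]
      have hpq := pq_symm j (h1 k).1 (h1 k).2
      apply Pool.Agent.Y715.T.RecG.cs_of hpq.prime hpq.norm
      have h5 := map_dvd j.symm (h3 i k hik)
      rw [sub_eq_zero.1 h4, map_sub, map_pow, map_pow, RingEquiv.symm_apply_apply, ← hnn k,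
        w_two] at h5
      exact h5
  have key : ∀ (v : Fin n → ZMod 3) (k : Fin n),
      ∑ i, (1 : ZMod 3) * cs (j.symm (π k)) (j.symm (π i)) * (v i - v k) =
        ε * ∑ i, χ k i * (v i - v k) := by
    intro v k
    rw [Finset.mul_sum]
    refine Finset.sum_congr rfl fun i _ => ?_
    by_cases hik : i = k
    · rw [hik, sub_self, mul_zero, mul_zero, mul_zero]
    · rw [hcs i k hik]
      ring
  rw [← Nat.card_coe_set_eq]
  unfold nL
  refine Nat.card_congr (Equiv.subtypeEquivRight fun v => ?_)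
  show (∀ k, ∑ i, (1 : ZMod 3) * cs (j.symm (π k)) (j.symm (π i)) * (v i - v k) = 0) ↔ _
  simp only [key, mul_eq_zero, hε, false_or]

/-- the class and the number of solutions -/
theorem selK_nS (hj : ∀ z : Ei, Algebra.norm ℤ (j z) = Pool.Agent.Y692.QS.nr z) {D : Ei}
    (hD : ClsE D) : (SelK (j D : K)).ncard = nS (ppr D) := by
  obtain ⟨n, π, hdt, rfl, -⟩ := Pool.Agent.Y696.CTK.ge2 D hD
  rw [nS_eq hdt]
  exact (main_pi parts hdt hD.2.2 j).1

/-- **The law over `K`.** -/
theorem lawK (hlaw : S_LAW) (K : Type) [Field K] [NumberField K] [IsCyclotomicExtension {3} ℚ K]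
    (r : ℕ) : Filter.Tendsto (fun X : ℕ =>
      ({D : 𝓞 K | Algebra.norm ℤ D ≤ X ∧ ClsK D ∧ (SelK (D : K)).ncard = 3 ^ (r + 1)}.ncard : ℝ) /
        ({D : 𝓞 K | Algebra.norm ℤ D ≤ X ∧ ClsK D}.ncard : ℝ)) Filter.atTop (nhds (cr r)) := by
  obtain ⟨⟨j, hj⟩, -⟩ := Pool.Agent.Y455.CTK.jex K
  have e1 : ∀ X : ℕ,
      {D : 𝓞 K | Algebra.norm ℤ D ≤ X ∧ ClsK D ∧ (SelK (D : K)).ncard = 3 ^ (r + 1)}.ncard =
      {D : Ei | Pool.Agent.Y692.QS.nr D ≤ X ∧ ClsE D ∧ nS (ppr D) = 3 ^ (r + 1)}.ncard := fun X =>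
    img_ncard j hj X (fun D => ClsE D ∧ nS (ppr D) = 3 ^ (r + 1))
      (fun D => ClsK D ∧ (SelK (D : K)).ncard = 3 ^ (r + 1)) fun D => by
        rw [cls_iff j hj D]
        refine and_congr_right fun hD => ?_
        rw [selK_nS j hj hD]
  have e2 : ∀ X : ℕ, {D : 𝓞 K | Algebra.norm ℤ D ≤ X ∧ ClsK D}.ncard =
      {D : Ei | Pool.Agent.Y692.QS.nr D ≤ X ∧ ClsE D}.ncard := fun X =>
    img_ncard j hj X ClsE ClsK fun D => (cls_iff j hj D).symm
  simp only [e1, e2]
  exact hlaw r

/-- The Selmer group, for one `D`. -/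
theorem oneK {K : Type} [Field K] [NumberField K] [IsCyclotomicExtension {3} ℚ K] {D : 𝓞 K}
    (hD : ClsK D) :
    (∃ r : ℕ, (SelK (D : K)).ncard = 3 ^ (r + 1) ∧
      Module.finrank ℤ (ED (D : K)).toAffine.Point ≤ 2 * r) ∧
    ((SelK (D : K)).ncard = 3 ↔ Tri D) ∧
    ∀ (ω : 𝓞 K) (n : ℕ) (π : Fin n → 𝓞 K) (χ : Fin n → Fin n → ZMod 3),
      ω ^ 2 + ω + 1 = 0 → IsFact ω D n π χ → (SelK (D : K)).ncard = nL χ := by
  obtain ⟨⟨j, hj⟩, -⟩ := Pool.Agent.Y455.CTK.jex K
  obtain ⟨z, rfl⟩ := j.surjective D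
  have hz : ClsE z := (cls_iff j hj z).1 hD
  refine ⟨?_, ?_, ?_⟩
  · obtain ⟨n, π, hdt, rfl, -⟩ := Pool.Agent.Y696.CTK.ge2 z hz
    obtain ⟨h1, h2⟩ := main_pi parts hdt hz.2.2 j
    obtain ⟨r, hr⟩ := ker_pow (π := π)
    exact ⟨r, h1.trans hr, h2 r hr.le⟩
  · obtain ⟨n, π, hdt, rfl, -⟩ := Pool.Agent.Y696.CTK.ge2 z hz
    obtain ⟨h1, h2⟩ := main_pi parts hdt hz.2.2 j
    rw [tri_iff j parts hdt hz.2.2, h1]
    constructor
    · intro h3 v hv
      have hfin : (KerV π (fun _ => (1 : ZMod 3))).Finite := Set.toFinite _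
      have hc : ∀ c : ZMod 3, (fun _ => c : Fin (n + 1) → ZMod 3) ∈ KerV π (fun _ => 1) :=
        fun c j => by simp
      have hcc : Set.range (fun (c : ZMod 3) (_ : Fin (n + 1)) => c) = KerV π (fun _ => 1) := by
        apply Set.eq_of_subset_of_ncard_le _ _ hfin
        · rintro _ ⟨c, rfl⟩
          exact hc c
        · rw [h3, Set.ncard_range_of_injective, Nat.card_zmod]
          intro c c' h
          exact congrFun h 0
      have hv' : v ∈ KerV π (fun _ => (1 : ZMod 3)) := hv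
      rw [← hcc] at hv'
      obtain ⟨c, rfl⟩ := hv'
      intro i k
      rfl
    · intro hk
      have hcc : KerV π (fun _ => (1 : ZMod 3)) =
          Set.range (fun (c : ZMod 3) (_ : Fin (n + 1)) => c) := by
        ext v
        constructor
        · intro hv
          exact ⟨v 0, funext fun i => hk v hv 0 i⟩
        · rintro ⟨c, rfl⟩
          exact fun j => by simp
      rw [hcc, Set.ncard_range_of_injective, Nat.card_zmod]
      intro c c' h
      exact congrFun h 0
  · intro ω n π χ hω h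
    obtain ⟨h1, h2⟩ := fact_dt j hD.2.1 h
    have hn : Nonempty (Fin n) := by
      rw [← not_isEmpty_iff]
      intro hn
      apply hD.2.2
      rw [h.2.1, Finset.univ_eq_empty, Finset.prod_empty, map_one, sub_self]
      exact dvd_zero _
    have h9 : ¬ (9 : ℤ) ∣ Pool.Agent.Y692.QS.nr
        (pD (fun i => j.symm (π i)) (fun _ => (1 : ZMod 3))) - 1 := by
      rw [h2, ← hj, RingEquiv.apply_symm_apply]
      exact hD.2.2
    have h3 := (main_pi (K := K) parts h1 h9 j).1
    rw [h2, RingEquiv.apply_symm_apply] at h3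
    rw [h3, ker_ncard j hj hω h]

end Pool.Agent.XL6
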