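import Pool.Agent.Y696.XL.SelK
import Pool.Agent.Y155.CT.Mwk

/-!
# Project XL: the bound for the rank
-/

set_option autoImplicit false
set_option linter.unusedSectionVars false

open scoped Classical

namespace Pool.Agent.XL6

open WeierstrassCurve
open Pool.Agent.Y692.QS (Ei w nr toC)
open Pool.Agent.Y715.T.Gi Pool.Agent.Y715.T.Nr Pool.Agent.Y715.T.Df Pool.Agent.Y715.T.Ell
open Pool.Agent.Y703.CT
open Pool.Agent.Y155.CT

/-- the reduction of a finitely generated group modulo three and torsion -/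
lemma quot_map (A : Type) [AddCommGroup A] [Module.Finite ℤ A] :
    ∃ g : A →+ (Fin (Module.finrank ℤ A) → ZMod 3), Function.Surjective g ∧
      ∀ (x : A) (n : ℤ), n ≠ 0 → n • x = 0 → g x = 0 := by
  have hfr : Module.finrank ℤ (A ⧸ Submodule.torsion ℤ A) = Module.finrank ℤ A :=
    finrank_quotient_eq_of_le_torsion le_rfl
  let b := Module.finBasisOfFinrankEq ℤ (A ⧸ Submodule.torsion ℤ A) hfr
  let g : A →+ (Fin (Module.finrank ℤ A) → ZMod 3) :=
    { toFun := fun x i => ((b.repr ((Submodule.torsion ℤ A).mkQ x) i : ℤ) : ZMod 3)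
      map_zero' := by
        funext i
        rw [map_zero, map_zero]
        simp
      map_add' := fun x y => by
        funext i
        rw [map_add, map_add]
        simp }
  refine ⟨g, fun y => ?_, fun x n hn hx => ?_⟩
  · obtain ⟨x, hx⟩ := (Submodule.torsion ℤ A).mkQ_surjective
      (b.repr.symm (Finsupp.equivFunOnFinite.symm fun i => ((y i).val : ℤ)))
    refine ⟨x, ?_⟩
    funext i
    show ((b.repr ((Submodule.torsion ℤ A).mkQ x) i : ℤ) : ZMod 3) = y i
    rw [hx, LinearEquiv.apply_symm_apply]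
    show (((y i).val : ℤ) : ZMod 3) = y i
    rw [Int.cast_natCast, ZMod.natCast_zmod_val]
  · funext i
    show ((b.repr ((Submodule.torsion ℤ A).mkQ x) i : ℤ) : ZMod 3) = 0
    have h1 : (Submodule.torsion ℤ A).mkQ x = 0 := by
      rw [Submodule.mkQ_apply, Submodule.Quotient.mk_eq_zero]
      exact ⟨⟨n, mem_nonZeroDivisors_of_ne_zero hn⟩, hx⟩
    rw [h1, map_zero]
    simp

variable {i₀ : QB} {hi : i₀ ^ 2 + i₀ + 1 = 0} {a : GK i₀ → ZMod 3}

/-- the Kummer character of a point -/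
lemma kum_pt (ha : ∀ σ τ, a (σ * τ) = a σ + a τ) (hc : IsLocallyConstant a) {R : Pt QB}
    (hR : Pool.Agent.Y155.CT.dd hi R ∈ AG hi a) :
    ∃ h ∈ SelH hi a, ∀ σ, ah hi a σ R - R = tt QB (h σ) := by
  have h0 : ∀ σ, Pool.Agent.Y155.CT.dd hi (ah hi a σ R - R) = 0 := fun σ => by
    rw [map_sub, ← ah_dd, hR σ, sub_self]
  have hex : ∀ σ, ∃ c : ZMod 3, ah hi a σ R - R = tt QB c := fun σ => dd_ker hi (h0 σ)
  have hf := co_cob (hi := hi) ha hc R
  choose h hh using hex
  have hcont : IsLocallyConstant h := by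
    have e : h = (fun P : Pt QB =>
        if hx : ∃ c : ZMod 3, P = tt QB c then hx.choose else 0) ∘ (fun σ => ah hi a σ R - R) := by
      ext1 σ
      show h σ = if hx : ∃ c : ZMod 3, ah hi a σ R - R = tt QB c then hx.choose else 0
      have hx : ∃ c : ZMod 3, ah hi a σ R - R = tt QB c := ⟨h σ, hh σ⟩
      rw [dif_pos hx]
      exact tt_inj ((hh σ).symm.trans hx.choose_spec)
    rw [e]
    exact hf.lc.comp _
  have hmul : ∀ σ τ, h (σ * τ) = h σ + h τ := by
    intro σ τ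
    apply tt_inj (L := QB)
    rw [← hh, hf.co, hh σ, hh τ, ah_tt, tt_add]
  refine ⟨h, ⟨hcont, hmul, fun p _ ι => ?_⟩, hh⟩
  obtain ⟨R', hR'⟩ := hf.lo p ι
  refine ⟨R', fun τ σ hc => ?_⟩
  have h1 := hR' τ σ hc
  rw [hh σ, pm_tt] at h1
  exact h1.symm

/-- **The bound for the rank.** -/
theorem rank_le (ha : ∀ σ τ, a (σ * τ) = a σ + a τ) (hc : IsLocallyConstant a)
    (hne : ∃ σ, a σ ≠ 0) {r : ℕ} (hfin : (SelH hi a).Finite)
    (hr : (SelH hi a).ncard ≤ 3 ^ (r + 1)) : Module.finrank ℤ (AG hi a) ≤ 2 * r := by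
  have hfg := AG_fg (hi := hi) ha hc
  -- a choice of the square roots and of the characters
  have hch : ∀ P : AG hi a, ∃ (R : Pt QB) (h : GK i₀ → ZMod 3),
      Pool.Agent.Y155.CT.dd hi R = P.1 ∧ h ∈ SelH hi a ∧ ∀ σ, ah hi a σ R - R = tt QB (h σ) := by
    intro P
    obtain ⟨R, hR⟩ := dd_surj hi P.1
    obtain ⟨h, h1, h2⟩ := kum_pt ha hc (R := R) (by rw [hR]; exact P.2)
    exact ⟨R, h, hR, h1, h2⟩
  choose R h hR hS hh using hch
  -- the equivalence relation
  let s : Setoid (AG hi a) :=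
    { r := fun P P' => ∃ c : ZMod 3, ∀ σ, h P σ = h P' σ + c * a σ
      iseqv :=
        { refl := fun P => ⟨0, fun σ => by ring⟩
          symm := fun {P P'} ⟨c, hc'⟩ => ⟨-c, fun σ => by rw [hc' σ]; ring⟩
          trans := fun {P P' P''} ⟨c, hc'⟩ ⟨c', hc''⟩ =>
            ⟨c + c', fun σ => by rw [hc' σ, hc'' σ]; ring⟩ } }
  let Q := Quotient s
  -- the characters of a class
  have hmem : ∀ (P : AG hi a) (c : ZMod 3), (fun σ => h P σ - c * a σ) ∈ SelH hi a := by
    intro P c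
    obtain ⟨h', h1, h2⟩ := kum_pt ha hc (R := R P + c.val • T3 hi) (by
      rw [map_add, map_nsmul, dd_T3, hR, nsmul_tt, mul_one, ZMod.natCast_zmod_val]
      exact add_mem P.2 (tt_mem c))
    have h3 : h' = fun σ => h P σ - c * a σ := by
      funext σ
      apply tt_inj (L := QB)
      have h4 := ah_nT3 hi a σ c
      rw [← h2, tt_sub, ← hh]
      have h5 : ah hi a σ (R P + c.val • T3 hi) - (R P + c.val • T3 hi) =
          (ah hi a σ (R P) - R P) + (ah hi a σ (c.val • T3 hi) - c.val • T3 hi) := by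
        rw [map_add]
        abel
      rw [h5, h4]
      abel
    rw [← h3]
    exact h1
  have hinj : Function.Injective (fun x : Q × ZMod 3 =>
      (⟨fun σ => h x.1.out σ - x.2 * a σ, hmem _ _⟩ : SelH hi a)) := by
    rintro ⟨q, c⟩ ⟨q', c'⟩ hxy
    have h1 : ∀ σ, h q.out σ - c * a σ = h q'.out σ - c' * a σ := fun σ =>
      congrFun (Subtype.ext_iff.1 hxy) σ
    have h2 : q = q' := by
      rw [← Quotient.out_eq q, ← Quotient.out_eq q']
      exact Quotient.sound ⟨c - c', fun σ => by linear_combination h1 σ⟩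
    subst h2
    obtain ⟨σ, hσ⟩ := hne
    have h3 : (c - c') * a σ = 0 := by linear_combination -(h1 σ)
    have h4 : c = c' := sub_eq_zero.1 ((mul_eq_zero.1 h3).resolve_right hσ)
    rw [h4]
  have hfinS : Finite (SelH hi a) := hfin
  have hfinQ3 : Finite (Q × ZMod 3) := Finite.of_injective _ hinj
  have hfinQ : Finite Q := Finite.of_injective (fun q : Q => ((q, 0) : Q × ZMod 3))
    fun q q' h => (Prod.mk.inj h).1
  have hcard : Nat.card Q * 3 ≤ 3 ^ (r + 1) := by
    have h1 := Nat.card_le_card_of_injective _ hinj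
    rw [Nat.card_prod, Nat.card_zmod, Nat.card_coe_set_eq] at h1
    exact h1.trans hr
  have hcQ : Nat.card Q ≤ 3 ^ r := by
    rw [pow_succ] at hcard
    omega
  -- representatives
  have hrep : ∀ P : AG hi a, ∃ (q : Q) (P' : AG hi a) (c : ZMod 3),
      P.1 = (q.out).1 + Pool.Agent.Y155.CT.dd hi P'.1 + tt QB c := by
    intro P
    obtain ⟨c, hc'⟩ : s.r P (Quotient.out (Quotient.mk s P)) :=
      Quotient.exact (Quotient.out_eq (Quotient.mk s P)).symm
    obtain ⟨P₀, hP₀⟩ : ∃ P₀ : AG hi a, P₀ = Quotient.out (Quotient.mk s P) := ⟨_, rfl⟩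
    rw [← hP₀] at hc'
    refine ⟨Quotient.mk s P, ⟨R P - R P₀ + c.val • T3 hi, fun σ => ?_⟩, -c, ?_⟩
    · have h1 := ah_nT3 hi a σ c
      have h2 : ah hi a σ (R P - R P₀ + c.val • T3 hi) =
          (ah hi a σ (R P) - R P) - (ah hi a σ (R P₀) - R P₀) +
          (ah hi a σ (c.val • T3 hi) - c.val • T3 hi) + (R P - R P₀ + c.val • T3 hi) := by
        rw [map_add, map_sub]
        abel
      rw [h2, h1, hh, hh, hc' σ, tt_add]
      abel
    · show P.1 = (Quotient.out (Quotient.mk s P)).1 +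
        Pool.Agent.Y155.CT.dd hi (R P - R P₀ + c.val • T3 hi) + tt QB (-c)
      rw [← hP₀, map_add, map_sub, map_nsmul, dd_T3, nsmul_tt, mul_one, ZMod.natCast_zmod_val,
        hR, hR, ← tt_neg]
      abel
  -- the reduction
  obtain ⟨g, hg1, hg2⟩ := quot_map (AG hi a)
  have hg3 : ∀ x : AG hi a, g ((3 : ℤ) • x) = 0 := by
    intro x
    rw [map_zsmul]
    funext i
    show (3 : ℤ) • g x i = 0
    rw [zsmul_eq_mul]
    have : (((3 : ℤ) : ZMod 3)) = 0 := by decide
    rw [this, zero_mul]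
  have htt : ∀ c : ZMod 3, g ⟨tt QB c, tt_mem c⟩ = 0 := fun c =>
    hg2 _ 3 three_ne_zero (Subtype.ext (three_tt c))
  have hsurj : Function.Surjective (fun x : Q × Q =>
      g x.1.out + g ⟨Pool.Agent.Y155.CT.dd hi x.2.out.1, dd_mem x.2.out.2⟩) := by
    intro y
    obtain ⟨P, rfl⟩ := hg1 y
    obtain ⟨q, P', c, h1⟩ := hrep P
    obtain ⟨q', P'', c', h2⟩ := hrep P'
    refine ⟨(q, q'), ?_⟩
    have h3 : P = q.out + ⟨Pool.Agent.Y155.CT.dd hi q'.out.1, dd_mem q'.out.2⟩ +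
        (-((3 : ℤ) • ⟨im (isE QB) hi P''.1, im_mem P''.2⟩)) + ⟨tt QB c, tt_mem c⟩ := by
      apply Subtype.ext
      show P.1 = q.out.1 + Pool.Agent.Y155.CT.dd hi q'.out.1 +
        (-((3 : ℤ) • im (isE QB) hi P''.1)) + tt QB c
      have h4 : Pool.Agent.Y155.CT.dd hi P'.1 = Pool.Agent.Y155.CT.dd hi q'.out.1 +
          (-((3 : ℤ) • im (isE QB) hi P''.1)) := by
        rw [h2, map_add, map_add, dd_tt, add_zero, dd_dd, map_nsmul]
        norm_cast
      rw [h1, h4]
      abel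
    show g q.out + g ⟨Pool.Agent.Y155.CT.dd hi q'.out.1, dd_mem q'.out.2⟩ = g P
    rw [h3, map_add, map_add, map_add, map_neg, hg3, htt, neg_zero, add_zero, add_zero]
  have h1 := Nat.card_le_card_of_surjective _ hsurj
  rw [Nat.card_prod, Nat.card_fun, Nat.card_zmod, Nat.card_fin] at h1
  have h2 : 3 ^ Module.finrank ℤ (AG hi a) ≤ 3 ^ (2 * r) := by
    calc 3 ^ Module.finrank ℤ (AG hi a) ≤ Nat.card Q * Nat.card Q := h1
      _ ≤ 3 ^ r * 3 ^ r := Nat.mul_le_mul hcQ hcQ
      _ = 3 ^ (2 * r) := by rw [← pow_add]; congr 1; ring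
  exact (Nat.pow_le_pow_iff_right (by norm_num)).1 h2

end Pool.Agent.XL6
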