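import Pool.Agent.Y696.XL.Sel
import Pool.Agent.Y954.CTK.SHC
import Pool.Agent.Y891.CTK.Sht

/-!
# Project XL: the Selmer group over `K`
-/

set_option autoImplicit false
set_option linter.unusedSectionVars false

open scoped Classical

namespace Pool.Agent.XL6

open NumberField IsDedekindDomain WeierstrassCurve
open Pool.Agent.Y692.QS (Ei w toC)
open Pool.Agent.Y703.CT
open Pool.Agent.Y715.T.Gi Pool.Agent.Y715.T.Nr Pool.Agent.Y715.T.Df Pool.Agent.Y715.T.Ell
open Pool.Agent.TH841.SH.D (Gal Coch IsCoc LocTriv cob)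
open Pool.Agent.Y696.CTK
open Pool.Agent.Y155.CT (ah_tt a_mul a_cont)
open Pool.Agent.Y954.CTK (io scl Th act_emb act_loc cmp loc_inf)

/-- The Selmer group of the endomorphism `√-3` of `y² + D y = x³`: the continuous cocycles with
values in the kernel `{0, (0, 0), (0, -D)}` that are coboundaries in the curve at all places. -/
def SelK {K : Type} [Field K] [NumberField K] (D : K) : Set (Coch (ED D)) :=
  {f | Pool.Agent.TH841.NF.D.IsShaCoc (ED D) f ∧
    ∀ σ, f σ = 0 ∨ ∃ y h, f σ = Affine.Point.some 0 y h}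

lemma x0_tt {x y : QB} (h : (W0.baseChange QB).toAffine.Nonsingular x y) (hx : x = 0) :
    ∃ c, (Affine.Point.some x y h : Pt QB) = tt QB c := by
  subst hx
  have h1 : y ^ 2 + y = (0 : QB) ^ 3 := ((isE QB).eqn _ _).1 h.1
  have h2 : y * (y + 1) = 0 := by linear_combination h1
  rcases mul_eq_zero.1 h2 with h3 | h3
  · refine ⟨1, ?_⟩
    rw [tt_one]
    unfold T0
    rw [Affine.Point.some.injEq]
    exact ⟨rfl, h3⟩
  · refine ⟨-1, ?_⟩
    rw [tt_neg_one]
    obtain ⟨h', e'⟩ := T0_neg (isE QB)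
    rw [e', Affine.Point.some.injEq]
    exact ⟨rfl, eq_neg_of_add_eq_zero_left h3⟩

lemma tt_x0 (c : ZMod 3) {x y : QB} (h : (W0.baseChange QB).toAffine.Nonsingular x y)
    (e : (Affine.Point.some x y h : Pt QB) = tt QB c) : x = 0 := by
  rcases z3 c with rfl | rfl | rfl
  · rw [tt_zero] at e
    exact absurd e (Affine.Point.some_ne_zero _)
  · rw [tt_one] at e
    unfold T0 at e
    rw [Affine.Point.some.injEq] at e
    exact e.1
  · rw [tt_neg_one] at e
    obtain ⟨h', e'⟩ := T0_neg (isE QB)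
    rw [e', Affine.Point.some.injEq] at e
    exact e.1

section
variable {K : Type} [Field K] [NumberField K] {j : Ei ≃+* 𝓞 K} {D : Ei}
  {e : AlgebraicClosure K ≃+* QB} {i₀ : QB} {hi : i₀ ^ 2 + i₀ + 1 = 0} {u : QB}
  {a : GK i₀ → ZMod 3}
  {Ψ : Pool.Agent.TH841.SH.D.Pt (ED (j D : K)) (AlgebraicClosure K) ≃+ Pt QB}
  {g : Pool.Agent.TH841.SH.D.Gal K ≃* GK i₀}

/-- from twisted cocycles to cocycles over `K` (from the proof of CTK-SHC) -/
lemma sha_of (hPLC : S_PLC) (hD : D ≠ 0) (hTr : TrfData K j D e i₀ hi u a Ψ g)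
    {f : GK i₀ → Pt QB} (hf : IsLocallyConstant f)
    (hcoc : ∀ σ τ, f (σ * τ) = f σ + Pool.Agent.Y703.CT.act hi a σ (f τ))
    (hloc : ∀ (p : ℕ) [Fact p.Prime] (ι : QB →ₐ[ℚ] PadicAlgCl p), ∃ R : Pt (PadicAlgCl p),
      ∀ (τ : Au p) (σ : GK i₀), Cmp ι τ σ →
        pm ι (f σ) = jj (iota_sq' hi ι) (a σ) (pm (lh τ) R) - R) :
    Pool.Agent.TH841.NF.D.IsShaCoc (ED (j D : K)) (fun σ => Ψ.symm (f (g σ))) := by
  obtain ⟨hTw, he, hgc, hgsc, hge, hΨ, hact⟩ := hTr
  have hu : u ^ 3 = e (algebraMap K (AlgebraicClosure K) (j D : K)) := by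
    rw [hTw.cube, he]
  have hu0 : u ≠ 0 := by
    rintro rfl
    exact ev_ne hi hD (by rw [← hTw.cube]; ring)
  have ha := hTw.act
  obtain ⟨F, hFdef⟩ : ∃ F : Coch (ED (j D : K)), F = fun σ => Ψ.symm (f (g σ)) := ⟨_, rfl⟩
  rw [← hFdef]
  have hF : ∀ σ, Ψ (F σ) = f (g σ) := fun σ => by
    rw [hFdef]
    exact Ψ.apply_symm_apply _
  have hF1 : F 1 = 0 := by
    apply Ψ.injective
    rw [hF, map_one, map_zero]
    have h1 := hcoc 1 1
    rw [mul_one] at h1
    have h2 : Pool.Agent.Y703.CT.act hi a 1 (f 1) = 0 := by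
      have h3 : f 1 + 0 = f 1 + Pool.Agent.Y703.CT.act hi a 1 (f 1) := by rw [← h1, add_zero]
      exact (add_left_cancel h3).symm
    obtain ⟨Q, hQ⟩ : ∃ Q, Ψ Q = f 1 := ⟨_, Ψ.apply_symm_apply _⟩
    have h4 := hact 1 Q
    rw [map_one, hQ, h2] at h4
    have h5 : Pool.Agent.TH841.SH.D.act (ED (j D : K)) (1 : Gal K).toAlgHom Q = Q := by
      rcases Q with _ | ⟨x, y, h⟩
      · exact map_zero _
      · rfl
    rw [h5, hQ] at h4
    exact h4
  have hIC : IsCoc (ED (j D : K)) F := by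
    refine ⟨?_, fun σ τ => ?_⟩
    · rw [hFdef]
      exact (hf.comp_continuous hgc).comp _
    · apply Ψ.injective
      rw [hF, map_mul, hcoc, ← hF, ← hF, ← hact, ← map_add]
  have hz : ((j w : 𝓞 K) : K) ^ 2 + ((j w : 𝓞 K) : K) + 1 = 0 := by
    have h1 : (w : Ei) ^ 2 + w + 1 = 0 := by
      rw [pow_two, Pool.Agent.Y692.QS.w_sq]; ring
    have h2 := congrArg (fun z => ((j z : 𝓞 K) : K)) h1
    simp only [map_add, map_pow, map_one, map_zero] at h2
    exact h2
  refine ⟨hIC, fun v => ?_, fun v => loc_inf hz v _ hF1⟩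
  obtain ⟨p, _, Φ, hΦ⟩ := hPLC K v
  intro ι'
  obtain ⟨R, hR⟩ := hloc p (io (e := e) Φ ι')
  have S := scl (d := (j D : K)) hu0 hu Φ ι'
  refine ⟨Th Φ ι' S R, fun τ σ h => ?_⟩
  obtain ⟨τ', hτ⟩ := hΦ τ
  rw [act_emb hu0 hΨ Φ ι' S, hF, hR τ' (g σ) (cmp hge Φ ι' hτ h), map_sub,
    act_loc hi ha hge Φ ι' S hτ h]

/-- **The Selmer group over `K`.** -/
theorem selK_card (hD : D ≠ 0) (hTr : TrfData K j D e i₀ hi u a Ψ g) :
    (SelK (j D : K)).ncard = (SelH hi a).ncard := by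
  obtain ⟨hTw, he, hgc, hgsc, hge, hΨ, hact⟩ := id hTr
  have hu : u ^ 3 = e (algebraMap K (AlgebraicClosure K) (j D : K)) := by
    rw [hTw.cube, he]
  have hu0 : u ≠ 0 := by
    rintro rfl
    exact ev_ne hi hD (by rw [← hTw.cube]; ring)
  symm
  refine Set.ncard_congr (fun h _ => (fun σ => Ψ.symm (tt QB (h (g σ))) : Coch (ED (j D : K))))
    (fun h hh => ⟨?_, fun σ => ?_⟩) (fun h h' hh hh' hEq => ?_) fun f hf => ?_
  · obtain ⟨h1, h2, h3⟩ := hh
    refine sha_of (f := fun σ => tt QB (h σ)) Pool.Agent.Y811.CTK.t_PLC hD hTr (h1.comp (fun c => tt QB c))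
      (fun σ τ => ?_) fun p _ ι => ?_
    · rw [h2, tt_add]
      have h4 := ah_tt hi a σ (h τ)
      rw [Pool.Agent.Y155.CT.ah_apply] at h4
      rw [h4]
    · obtain ⟨R, hR⟩ := h3 p ι
      refine ⟨R, fun τ σ hc => ?_⟩
      rw [pm_tt, hR τ σ hc]
  · have H : ∀ Q : Pool.Agent.TH841.SH.D.Pt (ED (j D : K)) (AlgebraicClosure K),
        Ψ Q = tt QB (h (g σ)) → Q = 0 ∨ ∃ y h, Q = Affine.Point.some 0 y h := by
      intro Q hQ'
      rcases Q with _ | ⟨x, y, hn⟩
      · left; rfl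
      · right
        obtain ⟨h', e1⟩ := hΨ x y hn
        have e2 := tt_x0 _ h' (e1.symm.trans hQ')
        have hx : x = 0 := by
          have h4 := (div_eq_zero_iff.1 e2).resolve_right (pow_ne_zero 2 hu0)
          exact (map_eq_zero e).1 h4
        subst hx
        exact ⟨y, hn, rfl⟩
    exact H _ (Ψ.apply_symm_apply _)
  · funext σ
    have h1 := congrFun hEq (g.symm σ)
    have h2 := Ψ.symm.injective h1
    rw [g.apply_symm_apply] at h2
    exact tt_inj h2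
  · obtain ⟨h1, h2⟩ := hf
    have hex : ∀ σ, ∃ c, Ψ (f (g.symm σ)) = tt QB c := by
      intro σ
      rcases h2 (g.symm σ) with h3 | ⟨y, hn, h3⟩
      · refine ⟨0, ?_⟩
        rw [h3, map_zero, tt_zero]
      · obtain ⟨h', e1⟩ := hΨ 0 y hn
        obtain ⟨c, hc⟩ := x0_tt h' (by rw [map_zero, zero_div])
        exact ⟨c, ((congrArg Ψ h3).trans e1).trans hc⟩
    choose h hh using hex
    have hcont : IsLocallyConstant h := by
      have e1 : h = (fun P : Pt QB =>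
          if hx : ∃ c : ZMod 3, P = tt QB c then hx.choose else 0) ∘
            (fun σ => Ψ (f (g.symm σ))) := by
        ext1 σ
        show h σ = if hx : ∃ c : ZMod 3, Ψ (f (g.symm σ)) = tt QB c then hx.choose else 0
        have hx : ∃ c : ZMod 3, Ψ (f (g.symm σ)) = tt QB c := ⟨h σ, hh σ⟩
        rw [dif_pos hx]
        exact tt_inj ((hh σ).symm.trans hx.choose_spec)
      rw [e1]
      exact ((h1.1.1.comp_continuous hgsc).comp _).comp _
    have hmul : ∀ σ τ, h (σ * τ) = h σ + h τ := by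
      intro σ τ
      apply tt_inj (L := QB)
      rw [tt_add, ← hh, ← hh, ← hh, map_mul, h1.1.2, map_add, hact, g.apply_symm_apply, hh τ]
      congr 1
      exact ah_tt hi a σ (h τ)
    refine ⟨h, ⟨hcont, hmul, fun p _ ι => ?_⟩, ?_⟩
    · obtain ⟨R, hR⟩ := Pool.Agent.Y891.CTK.local_part hi hu0 hu hTw.act hge hΨ h1 p ι
      refine ⟨R, fun τ σ hc => ?_⟩
      rw [← hR τ σ hc, hh, pm_tt]
    · funext σ
      apply Ψ.injective
      rw [Ψ.apply_symm_apply, ← hh, g.symm_apply_apply]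

end

end Pool.Agent.XL6
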